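import Pool.Agent.N798.S2.Stm

set_option autoImplicit false

/-!
Bilinear exponential sums with the phases `τ log n + ∑ g_i / n^{i+1}`.
-/

namespace Pool.Agent.N199.S2.TII

open Finset
open scoped ComplexConjugate
open Pool.Agent.H376R2.MR (er)
open Pool.Agent.N798.S2 (phE S_TII)
open Pool.Agent.N798.S (S_BL)

/-! ### the phases -/

lemma er_norm (x : ℝ) : ‖er 1 x‖ = 1 := by
  unfold er
  rw [Complex.norm_exp_ofReal_mul_I]

lemma er_add (x y : ℝ) : er 1 (x + y) = er 1 x * er 1 y := by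
  unfold er
  rw [← Complex.exp_add]
  congr 1
  push_cast
  ring

lemma er_conj (x : ℝ) : conj (er 1 x) = er 1 (-x) := by
  unfold er
  rw [← Complex.exp_conj]
  congr 1
  rw [map_mul, Complex.conj_I, Complex.conj_ofReal]
  push_cast
  ring

/-! ### Cauchy's inequality -/

theorem cs {s t : Finset ℕ} (a b : ℕ → ℂ) (w : ℕ → ℕ → ℂ) (D : ℝ)
    (hD : ∀ l ∈ t, ∑ l' ∈ t, ‖∑ m ∈ s, w m l * conj (w m l')‖ ≤ D) :
    ‖∑ m ∈ s, ∑ l ∈ t, a m * b l * w m l‖ ^ 2 ≤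
      (∑ m ∈ s, ‖a m‖ ^ 2) * ((∑ l ∈ t, ‖b l‖ ^ 2) * D) := by
  obtain ⟨T, hT⟩ : ∃ T : ℕ → ℂ, T = fun m => ∑ l ∈ t, b l * w m l := ⟨_, rfl⟩
  have e1 : ∑ m ∈ s, ∑ l ∈ t, a m * b l * w m l = ∑ m ∈ s, a m * T m := by
    refine Finset.sum_congr rfl fun m _ => ?_
    rw [hT, Finset.mul_sum]
    exact Finset.sum_congr rfl fun l _ => mul_assoc _ _ _
  have h1 : ‖∑ m ∈ s, a m * T m‖ ≤ ∑ m ∈ s, ‖a m‖ * ‖T m‖ := by
    refine (norm_sum_le _ _).trans (le_of_eq ?_)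
    exact Finset.sum_congr rfl fun m _ => norm_mul _ _
  have h2 : (∑ m ∈ s, ‖a m‖ * ‖T m‖) ^ 2 ≤ (∑ m ∈ s, ‖a m‖ ^ 2) * ∑ m ∈ s, ‖T m‖ ^ 2 :=
    Finset.sum_mul_sq_le_sq_mul_sq _ _ _
  have h3 : ‖∑ m ∈ s, a m * T m‖ ^ 2 ≤ (∑ m ∈ s, ‖a m‖ ^ 2) * ∑ m ∈ s, ‖T m‖ ^ 2 :=
    (pow_le_pow_left₀ (norm_nonneg _) h1 2).trans h2
  obtain ⟨G, hG⟩ : ∃ G : ℕ → ℕ → ℂ, G = fun l l' => ∑ m ∈ s, w m l * conj (w m l') := ⟨_, rfl⟩
  have hGs : ∀ l l', ‖G l l'‖ = ‖G l' l‖ := by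
    intro l l'
    have : G l' l = conj (G l l') := by
      rw [hG]
      simp only [map_sum, map_mul, Complex.conj_conj]
      exact Finset.sum_congr rfl fun m _ => mul_comm _ _
    rw [this, Complex.norm_conj]
  have h4 : ((∑ m ∈ s, ‖T m‖ ^ 2 : ℝ) : ℂ) = ∑ l ∈ t, ∑ l' ∈ t, (b l * conj (b l')) * G l l' := by
    have e2 : ∀ m ∈ s, ((‖T m‖ ^ 2 : ℝ) : ℂ) =
        ∑ l ∈ t, ∑ l' ∈ t, (b l * conj (b l')) * (w m l * conj (w m l')) := by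
      intro m _
      have e3 : ((‖T m‖ ^ 2 : ℝ) : ℂ) = T m * conj (T m) := by
        rw [Complex.mul_conj, Complex.normSq_eq_norm_sq]
      rw [e3, hT]
      simp only [map_sum, map_mul]
      rw [Finset.sum_mul_sum]
      refine Finset.sum_congr rfl fun l _ => Finset.sum_congr rfl fun l' _ => ?_
      ring
    rw [Complex.ofReal_sum, Finset.sum_congr rfl e2, Finset.sum_comm]
    refine Finset.sum_congr rfl fun l _ => ?_
    rw [Finset.sum_comm]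
    refine Finset.sum_congr rfl fun l' _ => ?_
    rw [hG, Finset.mul_sum]
  have h5 : ∑ m ∈ s, ‖T m‖ ^ 2 ≤ ∑ l ∈ t, ∑ l' ∈ t, ‖b l‖ * ‖b l'‖ * ‖G l l'‖ := by
    have hnn : 0 ≤ ∑ m ∈ s, ‖T m‖ ^ 2 := Finset.sum_nonneg fun m _ => by positivity
    have e4 : ∑ m ∈ s, ‖T m‖ ^ 2 = ‖((∑ m ∈ s, ‖T m‖ ^ 2 : ℝ) : ℂ)‖ := by
      rw [Complex.norm_real, Real.norm_of_nonneg hnn]
    rw [e4, h4]
    refine (norm_sum_le _ _).trans (Finset.sum_le_sum fun l _ => ?_)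
    refine (norm_sum_le _ _).trans (le_of_eq (Finset.sum_congr rfl fun l' _ => ?_))
    rw [norm_mul, norm_mul, Complex.norm_conj]
  have h6 : ∑ l ∈ t, ∑ l' ∈ t, ‖b l‖ * ‖b l'‖ * ‖G l l'‖ ≤
      ∑ l ∈ t, ∑ l' ∈ t, (‖b l‖ ^ 2 / 2 * ‖G l l'‖ + ‖b l'‖ ^ 2 / 2 * ‖G l l'‖) := by
    refine Finset.sum_le_sum fun l _ => Finset.sum_le_sum fun l' _ => ?_
    rw [← add_mul]
    refine mul_le_mul_of_nonneg_right ?_ (norm_nonneg _)
    nlinarith [sq_nonneg (‖b l‖ - ‖b l'‖)]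
  have h7 : ∑ l ∈ t, ∑ l' ∈ t, (‖b l‖ ^ 2 / 2 * ‖G l l'‖ + ‖b l'‖ ^ 2 / 2 * ‖G l l'‖) =
      ∑ l ∈ t, ∑ l' ∈ t, ‖b l‖ ^ 2 * ‖G l l'‖ := by
    have e5 : ∑ l ∈ t, ∑ l' ∈ t, ‖b l'‖ ^ 2 / 2 * ‖G l l'‖ =
        ∑ l ∈ t, ∑ l' ∈ t, ‖b l‖ ^ 2 / 2 * ‖G l l'‖ := by
      rw [Finset.sum_comm]
      refine Finset.sum_congr rfl fun l _ => Finset.sum_congr rfl fun l' _ => ?_
      rw [hGs]
    simp only [Finset.sum_add_distrib]
    rw [e5, ← Finset.sum_add_distrib]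
    refine Finset.sum_congr rfl fun l _ => ?_
    rw [← Finset.sum_add_distrib]
    refine Finset.sum_congr rfl fun l' _ => ?_
    ring
  have h8 : ∑ l ∈ t, ∑ l' ∈ t, ‖b l‖ ^ 2 * ‖G l l'‖ ≤ (∑ l ∈ t, ‖b l‖ ^ 2) * D := by
    rw [Finset.sum_mul]
    refine Finset.sum_le_sum fun l hl => ?_
    rw [← Finset.mul_sum]
    refine mul_le_mul_of_nonneg_left ?_ (by positivity)
    have := hD l hl
    rw [hG]
    exact this
  rw [e1]
  refine h3.trans (mul_le_mul_of_nonneg_left ?_ (Finset.sum_nonneg fun m _ => by positivity))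
  linarith

/-! ### differences of reciprocal powers -/

lemma far_lower_aux {x y Z : ℝ} (hx : 0 < x) (hxy : x ≤ y) (hy : y ≤ Z) (i : ℕ) :
    (y - x) / Z ^ (i + 2) ≤ 1 / x ^ (i + 1) - 1 / y ^ (i + 1) := by
  have hy0 : 0 < y := hx.trans_le hxy
  have hZ0 : 0 < Z := hy0.trans_le hy
  have h1 : (y - x) * y ^ i ≤ y ^ (i + 1) - x ^ (i + 1) := by
    have h2 : x ^ i ≤ y ^ i := pow_le_pow_left₀ hx.le hxy i
    have h3 : x * x ^ i ≤ x * y ^ i := mul_le_mul_of_nonneg_left h2 hx.le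
    rw [pow_succ y, pow_succ x]
    nlinarith
  have h4 : 1 / x ^ (i + 1) - 1 / y ^ (i + 1) = (y ^ (i + 1) - x ^ (i + 1)) / (x ^ (i + 1) * y ^ (i + 1)) := by
    field_simp
  have h5 : (y - x) * y ^ i / (x ^ (i + 1) * y ^ (i + 1)) = (y - x) / (x ^ (i + 1) * y) := by
    rw [pow_succ y]
    field_simp
  rw [h4]
  refine le_trans ?_ (div_le_div_of_nonneg_right h1 (by positivity))
  rw [h5]
  refine div_le_div_of_nonneg_left (by linarith) (by positivity) ?_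
  have h6 : x ^ (i + 1) ≤ Z ^ (i + 1) := pow_le_pow_left₀ hx.le (hxy.trans hy) _
  calc x ^ (i + 1) * y ≤ Z ^ (i + 1) * Z := mul_le_mul h6 hy hy0.le (by positivity)
    _ = Z ^ (i + 2) := by ring

lemma far_lower {x y Z : ℝ} (hx : 0 < x) (hy : 0 < y) (hxZ : x ≤ Z) (hyZ : y ≤ Z) (i : ℕ) :
    |x - y| / Z ^ (i + 2) ≤ |1 / x ^ (i + 1) - 1 / y ^ (i + 1)| := by
  rcases le_total x y with h | h
  · have h1 := far_lower_aux hx h hyZ i
    rw [abs_sub_comm, abs_of_nonneg (by linarith : (0 : ℝ) ≤ y - x)]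
    exact h1.trans (le_abs_self _)
  · have h1 := far_lower_aux hy h hxZ i
    rw [abs_of_nonneg (by linarith : (0 : ℝ) ≤ x - y), abs_sub_comm]
    exact h1.trans (le_abs_self _)

lemma near_upper {x y Z : ℝ} (hZ : 0 < Z) (hx : Z ≤ x) (hy : Z ≤ y) (i : ℕ) :
    |1 / x ^ (i + 1) - 1 / y ^ (i + 1)| ≤ 1 / Z ^ (i + 1) := by
  have h1 : 1 / x ^ (i + 1) ≤ 1 / Z ^ (i + 1) :=
    one_div_le_one_div_of_le (by positivity) (pow_le_pow_left₀ hZ.le hx _)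
  have h2 : 1 / y ^ (i + 1) ≤ 1 / Z ^ (i + 1) :=
    one_div_le_one_div_of_le (by positivity) (pow_le_pow_left₀ hZ.le hy _)
  have hx0 : 0 < x := hZ.trans_le hx
  have hy0 : 0 < y := hZ.trans_le hy
  have h3 : 0 ≤ 1 / x ^ (i + 1) := by positivity
  have h4 : 0 ≤ 1 / y ^ (i + 1) := by positivity
  rw [abs_le]
  constructor <;> linarith

/-! ### the correlation of two columns -/

/-- the coefficients of the phase in `m` -/
noncomputable def hh {J : ℕ} (g : Fin J → ℝ) (l l' : ℕ) (i : Fin J) : ℝ :=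
  g i * (1 / (l : ℝ) ^ ((i : ℕ) + 1) - 1 / (l' : ℝ) ^ ((i : ℕ) + 1))

/-- the phase in `m` -/
noncomputable def FF {J : ℕ} (g : Fin J → ℝ) (l l' m : ℕ) : ℂ :=
  er 1 (0 * Real.log m + ∑ i, hh g l l' i / (m : ℝ) ^ ((i : ℕ) + 1))

/-- the entries -/
noncomputable def ww {J : ℕ} (N N' : ℕ) (τ : ℝ) (g : Fin J → ℝ) (m l : ℕ) : ℂ :=
  if N < m * l ∧ m * l ≤ N' then phE τ g (m * l) else 0

lemma phE_norm {J : ℕ} (τ : ℝ) (g : Fin J → ℝ) (n : ℕ) : ‖phE τ g n‖ = 1 := er_norm _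

lemma ww_norm {J : ℕ} (N N' : ℕ) (τ : ℝ) (g : Fin J → ℝ) (m l : ℕ) : ‖ww N N' τ g m l‖ ≤ 1 := by
  unfold ww
  split_ifs
  · exact (phE_norm τ g _).le
  · simp

lemma phE_mul {J : ℕ} (τ : ℝ) (g : Fin J → ℝ) {m l l' : ℕ} (hm : 0 < m) (hl : 0 < l)
    (hl' : 0 < l') : phE τ g (m * l) * conj (phE τ g (m * l')) =
      er 1 (τ * (Real.log l - Real.log l')) * FF g l l' m := by
  unfold phE FF
  rw [er_conj, ← er_add, ← er_add]
  congr 1
  have hm0 : (m : ℝ) ≠ 0 := by positivity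
  have hl0 : (l : ℝ) ≠ 0 := by positivity
  have hl0' : (l' : ℝ) ≠ 0 := by positivity
  have e1 : ∑ i, hh g l l' i / (m : ℝ) ^ ((i : ℕ) + 1) =
      ∑ i, g i / ((m * l : ℕ) : ℝ) ^ ((i : ℕ) + 1) - ∑ i, g i / ((m * l' : ℕ) : ℝ) ^ ((i : ℕ) + 1) := by
    rw [← Finset.sum_sub_distrib]
    refine Finset.sum_congr rfl fun i _ => ?_
    unfold hh
    push_cast
    rw [mul_pow, mul_pow]
    field_simp
  rw [e1]
  push_cast
  rw [Real.log_mul hm0 hl0, Real.log_mul hm0 hl0']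
  ring

theorem corr {J : ℕ} {N N' : ℕ} {τ : ℝ} {g : Fin J → ℝ} {M l l' : ℕ} (hl : 0 < l) (hl' : 0 < l')
    {X : ℝ} (hX : ∀ b, M ≤ b → b ≤ 2 * M → ‖∑ m ∈ Ioc M b, FF g l l' m‖ ≤ X) :
    ‖∑ m ∈ Ioc M (2 * M), ww N N' τ g m l * conj (ww N N' τ g m l')‖ ≤ 2 * X := by
  obtain ⟨a', ha'⟩ : ∃ a', a' = max M (max (N / l) (N / l')) := ⟨_, rfl⟩
  obtain ⟨b', hb'⟩ : ∃ b', b' = min (2 * M) (min (N' / l) (N' / l')) := ⟨_, rfl⟩
  have hX0 : 0 ≤ X := (norm_nonneg _).trans (hX M le_rfl (by omega))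
  have e1 : ∑ m ∈ Ioc M (2 * M), ww N N' τ g m l * conj (ww N N' τ g m l') =
      ∑ m ∈ Ioc a' b', er 1 (τ * (Real.log l - Real.log l')) * FF g l l' m := by
    have e2 : Ioc a' b' = (Ioc M (2 * M)).filter fun m =>
        (N < m * l ∧ m * l ≤ N') ∧ (N < m * l' ∧ m * l' ≤ N') := by
      ext m
      simp only [mem_Ioc, mem_filter, ha', hb', max_lt_iff, le_min_iff, Nat.div_lt_iff_lt_mul hl,
        Nat.div_lt_iff_lt_mul hl', Nat.le_div_iff_mul_le hl, Nat.le_div_iff_mul_le hl']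
      tauto
    rw [e2, Finset.sum_filter]
    refine Finset.sum_congr rfl fun m hm => ?_
    have hm0 : 0 < m := by
      rw [mem_Ioc] at hm
      omega
    unfold ww
    by_cases h1 : N < m * l ∧ m * l ≤ N'
    · by_cases h2 : N < m * l' ∧ m * l' ≤ N'
      · rw [if_pos h1, if_pos h2, if_pos ⟨h1, h2⟩, phE_mul τ g hm0 hl hl']
      · have h3 : ¬ ((N < m * l ∧ m * l ≤ N') ∧ (N < m * l' ∧ m * l' ≤ N')) := fun h => h2 h.2
        rw [if_neg h2, if_neg h3, map_zero, mul_zero]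
    · have h3 : ¬ ((N < m * l ∧ m * l ≤ N') ∧ (N < m * l' ∧ m * l' ≤ N')) := fun h => h1 h.1
      rw [if_neg h1, if_neg h3, zero_mul]
  rw [e1, ← Finset.mul_sum, norm_mul, er_norm, one_mul]
  by_cases hab : a' ≤ b'
  · have hMa : M ≤ a' := by rw [ha']; exact le_max_left _ _
    have hbM : b' ≤ 2 * M := by rw [hb']; exact min_le_left _ _
    have e3 := Finset.sum_Ioc_consecutive (fun m => FF g l l' m) hMa hab
    have e4 : ∑ m ∈ Ioc a' b', FF g l l' m = ∑ m ∈ Ioc M b', FF g l l' m - ∑ m ∈ Ioc M a', FF g l l' m := by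
      rw [← e3]
      ring
    rw [e4]
    have h1 := hX b' (hMa.trans hab) hbM
    have h2 := hX a' hMa (hab.trans hbM)
    exact (norm_sub_le _ _).trans (by linarith)
  · rw [Finset.Ioc_eq_empty (by omega), Finset.sum_empty, norm_zero]
    linarith

theorem corr_triv {J : ℕ} {N N' : ℕ} {τ : ℝ} {g : Fin J → ℝ} {M l l' : ℕ} :
    ‖∑ m ∈ Ioc M (2 * M), ww N N' τ g m l * conj (ww N N' τ g m l')‖ ≤ M := by
  have h1 : ∀ m ∈ Ioc M (2 * M), ‖ww N N' τ g m l * conj (ww N N' τ g m l')‖ ≤ 1 := by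
    intro m _
    rw [norm_mul, Complex.norm_conj]
    exact mul_le_one₀ (ww_norm _ _ _ _ _ _) (norm_nonneg _) (ww_norm _ _ _ _ _ _)
  refine (norm_sum_le_of_le _ h1).trans (le_of_eq ?_)
  rw [Finset.sum_const, Nat.card_Ioc, nsmul_eq_mul, mul_one]
  congr 1
  omega

/-- the number of the integers near `l` -/
lemma near_card (L l : ℕ) {Δ : ℝ} (hΔ : 0 ≤ Δ) :
    (((Ioc L (2 * L)).filter fun l' : ℕ => |(l : ℝ) - l'| < Δ).card : ℝ) ≤ 2 * Δ + 1 := by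
  have h1 : ((Ioc L (2 * L)).filter fun l' : ℕ => |(l : ℝ) - l'| < Δ) ⊆ Icc (l - ⌊Δ⌋₊) (l + ⌊Δ⌋₊) := by
    intro l' hl'
    rw [mem_filter] at hl'
    have h2 := hl'.2
    rw [abs_lt] at h2
    rw [mem_Icc]
    constructor
    · rw [tsub_le_iff_right]
      by_contra hc
      push Not at hc
      have h3 : l' < l := by omega
      have h4 : ⌊Δ⌋₊ < l - l' := by omega
      rw [Nat.floor_lt hΔ, Nat.cast_sub h3.le] at h4
      linarith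
    · by_contra hc
      push Not at hc
      have h3 : l < l' := by omega
      have h4 : ⌊Δ⌋₊ < l' - l := by omega
      rw [Nat.floor_lt hΔ, Nat.cast_sub h3.le] at h4
      linarith
  have h5 := Finset.card_le_card h1
  rw [Nat.card_Icc] at h5
  have h6 : ((Ioc L (2 * L)).filter fun l' : ℕ => |(l : ℝ) - l'| < Δ).card ≤ 2 * ⌊Δ⌋₊ + 1 := by omega
  have h7 : (((Ioc L (2 * L)).filter fun l' : ℕ => |(l : ℝ) - l'| < Δ).card : ℝ) ≤ 2 * ⌊Δ⌋₊ + 1 := by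
    exact_mod_cast h6
  have h8 := Nat.floor_le hΔ
  linarith

/-! ### the far pairs -/

/-- everything about the sizes, for `N ≥ 2 ^ 20` -/
structure Sz (N N' U M L : ℕ) : Prop where
  N1 : 2 ^ 20 ≤ N
  N2 : N' ≤ 2 * N
  U1 : (N : ℝ) ^ (1 / 10 : ℝ) ≤ U
  M1 : U < 2 * M
  L1 : U < 2 * L
  ML : M * L ≤ N'

lemma Sz.logN {N N' U M L : ℕ} (h : Sz N N' U M L) : 20 * Real.log 2 ≤ Real.log N := by
  have h1 : ((2 : ℝ) ^ 20) ≤ N := by exact_mod_cast h.N1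
  have h2 := Real.log_le_log (by positivity) h1
  rw [Real.log_pow] at h2
  exact_mod_cast h2

lemma Sz.two_le_logN {N N' U M L : ℕ} (h : Sz N N' U M L) : 2 ≤ Real.log N := by
  have h1 := h.logN
  have h2 := Real.log_two_gt_d9
  linarith

lemma Sz.Npos {N N' U M L : ℕ} (h : Sz N N' U M L) : (0 : ℝ) < N := by
  have := h.N1
  exact_mod_cast (by omega : 0 < N)

lemma Sz.MR {N N' U M L : ℕ} (h : Sz N N' U M L) : (N : ℝ) ^ (1 / 10 : ℝ) < 2 * M := by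
  have h1 : (U : ℝ) < 2 * M := by exact_mod_cast h.M1
  exact h.U1.trans_lt h1

lemma Sz.LR {N N' U M L : ℕ} (h : Sz N N' U M L) : (N : ℝ) ^ (1 / 10 : ℝ) < 2 * L := by
  have h1 : (U : ℝ) < 2 * L := by exact_mod_cast h.L1
  exact h.U1.trans_lt h1

lemma Sz.Nlt {N N' U M L : ℕ} (h : Sz N N' U M L) : (N : ℝ) ≤ (2 * M) ^ 10 := by
  have h1 := pow_le_pow_left₀ (Real.rpow_nonneg h.Npos.le _) h.MR.le 10
  rw [← Real.rpow_natCast, ← Real.rpow_mul h.Npos.le] at h1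
  norm_num at h1
  exact_mod_cast h1

lemma Sz.M2 {N N' U M L : ℕ} (h : Sz N N' U M L) : 2 ≤ M := by
  have h1 := h.Nlt
  have h2 : (2000 : ℝ) ≤ N := by
    have := h.N1
    exact_mod_cast (by omega : 2000 ≤ N)
  by_contra hc
  have h3 : (M : ℝ) ≤ 1 := by exact_mod_cast (by omega : M ≤ 1)
  have h4 : (2 * (M : ℝ)) ^ 10 ≤ 2 ^ 10 := pow_le_pow_left₀ (by positivity) (by linarith) 10
  have h5 : ((2 : ℝ) ^ 10) = 1024 := by norm_num
  linarith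

lemma Sz.logM {N N' U M L : ℕ} (h : Sz N N' U M L) : Real.log N / 20 ≤ Real.log M := by
  have hM : (0 : ℝ) < M := by exact_mod_cast (by have := h.M2; omega : 0 < M)
  have h1 := Real.log_le_log (Real.rpow_pos_of_pos h.Npos _) h.MR.le
  rw [Real.log_rpow h.Npos, Real.log_mul (by norm_num) hM.ne'] at h1
  have h2 := h.logN
  linarith

lemma Sz.MLR {N N' U M L : ℕ} (h : Sz N N' U M L) : (M : ℝ) * L ≤ 2 * N := by
  have h1 : M * L ≤ 2 * N := h.ML.trans h.N2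
  exact_mod_cast h1

lemma Sz.L1' {N N' U M L : ℕ} (h : Sz N N' U M L) : 1 ≤ L := by
  have := h.L1
  omega

lemma Sz.logM' {N N' U M L : ℕ} (h : Sz N N' U M L) : Real.log M ≤ 2 * Real.log N := by
  have hM : (0 : ℝ) < M := by exact_mod_cast (by have := h.M2; omega : 0 < M)
  have hL : (1 : ℝ) ≤ L := by exact_mod_cast h.L1'
  have h1 : (M : ℝ) ≤ 2 * N := by
    have := h.MLR
    nlinarith
  have h2 := Real.log_le_log hM h1
  rw [Real.log_mul (by norm_num) h.Npos.ne'] at h2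
  have h3 := h.logN
  have h4 := Real.log_two_gt_d9
  linarith

theorem far {J A K K₃ : ℕ} {C₁ : ℝ} (hC₁ : 0 < C₁)
    (hBL : ∀ (N N' : ℕ) (τ : ℝ) (g : Fin J → ℝ), 2 ≤ N → N ≤ N' → N' ≤ 2 * N →
      |τ| ≤ (N : ℝ) ^ (20 * A + 2 * J) →
      (∀ i, |g i| / (N : ℝ) ^ ((i : ℕ) + 1) ≤ (N : ℝ) ^ (20 * A + 2 * J)) →
      ((Real.log N) ^ K₃ ≤ |τ| ∨ ∃ i, (Real.log N) ^ K₃ ≤ |g i| / (N : ℝ) ^ ((i : ℕ) + 1)) →
      ‖∑ n ∈ Ioc N N', er 1 (τ * Real.log n + ∑ i, g i / (n : ℝ) ^ ((i : ℕ) + 1))‖ ≤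
        C₁ * N / (Real.log N) ^ (2 * K))
    {N N' U M L : ℕ} (h : Sz N N' U M L) {τ : ℝ} {g : Fin J → ℝ}
    (hg1 : ∀ i, |g i| / (N : ℝ) ^ ((i : ℕ) + 1) ≤ (N : ℝ) ^ A)
    (hg2 : ∃ i, (Real.log N) ^ (2 * K₃ + 2 * K + 2 * J + 1) ≤ |g i| / (N : ℝ) ^ ((i : ℕ) + 1))
    {l l' : ℕ} (hl : l ∈ Ioc L (2 * L)) (hl' : l' ∈ Ioc L (2 * L))
    (hfar : L / (Real.log N) ^ (2 * K) ≤ |(l : ℝ) - l'|) :
    ‖∑ m ∈ Ioc M (2 * M), ww N N' τ g m l * conj (ww N N' τ g m l')‖ ≤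
      2 * (C₁ * 20 ^ (2 * K) * M / (Real.log N) ^ (2 * K)) := by
  rw [mem_Ioc] at hl hl'
  have hL0 : (0 : ℝ) < L := by exact_mod_cast h.L1'
  have hM2 := h.M2
  have hM0 : (0 : ℝ) < M := by exact_mod_cast (by omega : 0 < M)
  have hN0 := h.Npos
  have hlN := h.two_le_logN
  have hlN0 : 0 < Real.log N := by linarith
  by_cases hne : N ≤ 4 * (M * L)
  swap
  · -- the sum is empty
    have e0 : ∑ m ∈ Ioc M (2 * M), ww N N' τ g m l * conj (ww N N' τ g m l') = 0 := by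
      refine Finset.sum_eq_zero fun m hm => ?_
      rw [mem_Ioc] at hm
      have h1 : m * l ≤ 2 * M * (2 * L) := Nat.mul_le_mul hm.2 hl.2
      have h2 : ¬ (N < m * l ∧ m * l ≤ N') := by
        rintro ⟨h3, -⟩
        have h4 : 2 * M * (2 * L) = 4 * (M * L) := by ring
        omega
      unfold ww
      rw [if_neg h2, zero_mul]
    rw [e0, norm_zero]
    positivity
  refine corr (by omega) (by omega) ?_
  intro b hb1 hb2
  have hneR : (N : ℝ) ≤ 4 * (M * L) := by exact_mod_cast hne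
  have hlR : (L : ℝ) ≤ l := by exact_mod_cast hl.1.le
  have hlR' : (L : ℝ) ≤ l' := by exact_mod_cast hl'.1.le
  have hlU : (l : ℝ) ≤ 2 * L := by exact_mod_cast hl.2
  have hlU' : (l' : ℝ) ≤ 2 * L := by exact_mod_cast hl'.2
  have hl0 : (0 : ℝ) < l := by linarith
  have hl0' : (0 : ℝ) < l' := by linarith
  have habs : ∀ i, |hh g l l' i| / (M : ℝ) ^ ((i : ℕ) + 1) =
      |g i| * |1 / (l : ℝ) ^ ((i : ℕ) + 1) - 1 / (l' : ℝ) ^ ((i : ℕ) + 1)| / (M : ℝ) ^ ((i : ℕ) + 1) := by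
    intro i
    unfold hh
    rw [abs_mul]
  have hJ : ∀ i : Fin J, (i : ℕ) + 1 ≤ J := fun i => i.2
  have key := hBL M b 0 (hh g l l') hM2 hb1 hb2 (by rw [abs_zero]; positivity) ?_ ?_
  · have h1 : FF g l l' = fun m : ℕ => er 1 (0 * Real.log (m : ℝ) +
        ∑ i, hh g l l' i / (m : ℝ) ^ ((i : ℕ) + 1)) := rfl
    rw [h1]
    refine key.trans ?_
    have h2 : Real.log N / 20 ≤ Real.log M := h.logM
    have h3 : (Real.log N / 20) ^ (2 * K) ≤ (Real.log M) ^ (2 * K) :=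
      pow_le_pow_left₀ (by positivity) h2 _
    have h4 : 0 < (Real.log N / 20) ^ (2 * K) := by positivity
    calc C₁ * M / (Real.log M) ^ (2 * K) ≤ C₁ * M / (Real.log N / 20) ^ (2 * K) :=
          div_le_div_of_nonneg_left (by positivity) h4 h3
      _ = C₁ * 20 ^ (2 * K) * M / (Real.log N) ^ (2 * K) := by
          rw [div_pow]
          field_simp
  · -- the upper bounds
    intro i
    rw [habs]
    have h1 := near_upper hL0 hlR hlR' (i : ℕ)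
    have h2 : |g i| * |1 / (l : ℝ) ^ ((i : ℕ) + 1) - 1 / (l' : ℝ) ^ ((i : ℕ) + 1)| / (M : ℝ) ^ ((i : ℕ) + 1) ≤
        |g i| * (1 / (L : ℝ) ^ ((i : ℕ) + 1)) / (M : ℝ) ^ ((i : ℕ) + 1) := by
      gcongr
    refine h2.trans ?_
    have h3 : (N : ℝ) ^ ((i : ℕ) + 1) ≤ (4 * (M * L)) ^ ((i : ℕ) + 1) := pow_le_pow_left₀ hN0.le hneR _
    have h4 : |g i| * (1 / (L : ℝ) ^ ((i : ℕ) + 1)) / (M : ℝ) ^ ((i : ℕ) + 1) =
        4 ^ ((i : ℕ) + 1) * (|g i| / (4 * (M * L)) ^ ((i : ℕ) + 1)) := by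
      rw [mul_pow, mul_pow]
      field_simp
    rw [h4]
    have h5 : |g i| / (4 * ((M : ℝ) * L)) ^ ((i : ℕ) + 1) ≤ |g i| / (N : ℝ) ^ ((i : ℕ) + 1) :=
      div_le_div_of_nonneg_left (abs_nonneg _) (by positivity) h3
    have h6 : |g i| / (4 * ((M : ℝ) * L)) ^ ((i : ℕ) + 1) ≤ (N : ℝ) ^ A := h5.trans (hg1 i)
    have hM2R : (2 : ℝ) ≤ M := by exact_mod_cast hM2
    have h7 : (4 : ℝ) ^ ((i : ℕ) + 1) ≤ (M : ℝ) ^ (2 * J) := by
      calc (4 : ℝ) ^ ((i : ℕ) + 1) ≤ 4 ^ J := pow_le_pow_right₀ (by norm_num) (hJ i)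
        _ = (2 : ℝ) ^ (2 * J) := by rw [pow_mul]; norm_num
        _ ≤ (M : ℝ) ^ (2 * J) := pow_le_pow_left₀ (by norm_num) hM2R _
    have h8 : (N : ℝ) ^ A ≤ (M : ℝ) ^ (20 * A) := by
      have h9 : (N : ℝ) ≤ (M : ℝ) ^ 20 := by
        refine h.Nlt.trans ?_
        calc (2 * (M : ℝ)) ^ 10 ≤ ((M : ℝ) * M) ^ 10 := by gcongr
          _ = (M : ℝ) ^ 20 := by ring
      calc (N : ℝ) ^ A ≤ ((M : ℝ) ^ 20) ^ A := pow_le_pow_left₀ hN0.le h9 _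
        _ = (M : ℝ) ^ (20 * A) := by rw [pow_mul]
    calc (4 : ℝ) ^ ((i : ℕ) + 1) * (|g i| / (4 * ((M : ℝ) * L)) ^ ((i : ℕ) + 1))
        ≤ (M : ℝ) ^ (2 * J) * (M : ℝ) ^ (20 * A) :=
          mul_le_mul h7 (h6.trans h8) (by positivity) (by positivity)
      _ = (M : ℝ) ^ (20 * A + 2 * J) := by rw [← pow_add]; congr 1; omega
  · -- the lower bound
    right
    obtain ⟨i, hi⟩ := hg2
    refine ⟨i, ?_⟩
    rw [habs]
    obtain ⟨q, hq⟩ : ∃ q : ℝ, q = (Real.log N) ^ (2 * K) := ⟨_, rfl⟩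
    have hq0 : 0 < q := by rw [hq]; positivity
    rw [← hq] at hfar
    have h1 := far_lower hl0 hl0' hlU hlU' (i : ℕ)
    have h2 : (L : ℝ) / q / (2 * L) ^ ((i : ℕ) + 2) ≤
        |1 / (l : ℝ) ^ ((i : ℕ) + 1) - 1 / (l' : ℝ) ^ ((i : ℕ) + 1)| :=
      (div_le_div_of_nonneg_right hfar (by positivity)).trans h1
    have h3 : |g i| * ((L : ℝ) / q / (2 * L) ^ ((i : ℕ) + 2)) / (M : ℝ) ^ ((i : ℕ) + 1) ≤
        |g i| * |1 / (l : ℝ) ^ ((i : ℕ) + 1) - 1 / (l' : ℝ) ^ ((i : ℕ) + 1)| / (M : ℝ) ^ ((i : ℕ) + 1) := by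
      gcongr
    refine le_trans ?_ h3
    have h4 : |g i| * ((L : ℝ) / q / (2 * L) ^ ((i : ℕ) + 2)) / (M : ℝ) ^ ((i : ℕ) + 1) =
        |g i| / ((M : ℝ) * L) ^ ((i : ℕ) + 1) / (q * 2 ^ ((i : ℕ) + 2)) := by
      rw [mul_pow, mul_pow]
      field_simp
      ring
    rw [h4]
    have h5 : ((M : ℝ) * L) ^ ((i : ℕ) + 1) ≤ (2 * N) ^ ((i : ℕ) + 1) :=
      pow_le_pow_left₀ (by positivity) h.MLR _
    have h6 : |g i| / (N : ℝ) ^ ((i : ℕ) + 1) / 2 ^ ((i : ℕ) + 1) ≤ |g i| / ((M : ℝ) * L) ^ ((i : ℕ) + 1) := by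
      rw [div_div, mul_comm, ← mul_pow]
      exact div_le_div_of_nonneg_left (abs_nonneg _) (by positivity) h5
    have h7 : (Real.log N) ^ (2 * K₃ + 2 * K + 2 * J + 1) / 2 ^ ((i : ℕ) + 1) / (q * 2 ^ ((i : ℕ) + 2)) ≤
        |g i| / ((M : ℝ) * L) ^ ((i : ℕ) + 1) / (q * 2 ^ ((i : ℕ) + 2)) := by
      refine div_le_div_of_nonneg_right (le_trans ?_ h6) (by positivity)
      exact div_le_div_of_nonneg_right hi (by positivity)
    refine le_trans ?_ h7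
    have h8 : (Real.log N) ^ (2 * K₃ + 2 * K + 2 * J + 1) =
        (Real.log N) ^ K₃ * (Real.log N) ^ (K₃ + 2 * J + 1) * q := by
      rw [hq, ← pow_add, ← pow_add]
      congr 1
      omega
    have h9 : (2 : ℝ) ^ (K₃ + 2 * J + 1) ≤ (Real.log N) ^ (K₃ + 2 * J + 1) :=
      pow_le_pow_left₀ (by norm_num) hlN _
    have h10 : (Real.log M) ^ K₃ ≤ 2 ^ K₃ * (Real.log N) ^ K₃ := by
      rw [← mul_pow]
      refine pow_le_pow_left₀ (Real.log_nonneg ?_) h.logM' _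
      exact_mod_cast (by omega : 1 ≤ M)
    have h11 : (2 : ℝ) ^ ((i : ℕ) + 1) * 2 ^ ((i : ℕ) + 2) ≤ 2 ^ (2 * J + 1) := by
      rw [← pow_add]
      have := hJ i
      exact pow_le_pow_right₀ (by norm_num) (by omega)
    rw [h8, div_div, le_div_iff₀ (by positivity)]
    calc (Real.log M) ^ K₃ * (2 ^ ((i : ℕ) + 1) * (q * 2 ^ ((i : ℕ) + 2)))
        = (Real.log M) ^ K₃ * (2 ^ ((i : ℕ) + 1) * 2 ^ ((i : ℕ) + 2)) * q := by ring
      _ ≤ (2 ^ K₃ * (Real.log N) ^ K₃) * 2 ^ (2 * J + 1) * q := by gcongr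
      _ = (Real.log N) ^ K₃ * 2 ^ (K₃ + 2 * J + 1) * q := by ring
      _ ≤ (Real.log N) ^ K₃ * (Real.log N) ^ (K₃ + 2 * J + 1) * q := by gcongr

/-! ### the powers of the logarithm -/

lemma logpow (K : ℕ) {x : ℝ} (hx : 1 ≤ x) :
    (Real.log x) ^ (2 * K) ≤ x ^ (1 / 10 : ℝ) * (20 * (K + 1)) ^ (2 * K) := by
  have hx0 : 0 ≤ x := by linarith
  obtain ⟨e, he⟩ : ∃ e : ℝ, e = 1 / (20 * ((K : ℝ) + 1)) := ⟨_, rfl⟩
  have he0 : 0 < e := by rw [he]; positivity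
  have h1 := Real.log_le_rpow_div hx0 he0
  have h2 : x ^ e / e = x ^ e * (20 * ((K : ℝ) + 1)) := by
    rw [he, div_div_eq_mul_div, div_one]
  rw [h2] at h1
  have h3 := pow_le_pow_left₀ (Real.log_nonneg hx) h1 (2 * K)
  rw [mul_pow] at h3
  refine h3.trans (mul_le_mul_of_nonneg_right ?_ (by positivity))
  rw [← Real.rpow_natCast, ← Real.rpow_mul hx0]
  refine Real.rpow_le_rpow_of_exponent_le hx ?_
  rw [he]
  push_cast
  rw [one_div_mul_eq_div, div_le_div_iff₀ (by positivity) (by norm_num)]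
  have : (0 : ℝ) ≤ K := Nat.cast_nonneg K
  linarith

/-- **Bilinear sums.** -/
theorem tii (h : S_BL) : S_TII := by
  intro J A K
  obtain ⟨K₃, C₁, hC₁, hBL⟩ := h J (20 * A + 2 * J) (2 * K)
  obtain ⟨C₂, hC₂⟩ : ∃ C₂ : ℝ, C₂ = 8 + 8 * (C₁ * 20 ^ (2 * K)) + 8 * (20 * ((K : ℝ) + 1)) ^ (2 * K) :=
    ⟨_, rfl⟩
  have hC₂1 : 1 ≤ C₂ := by
    rw [hC₂]
    have h1 : 0 ≤ C₁ * 20 ^ (2 * K) := by positivity
    have h2 : 0 ≤ (20 * ((K : ℝ) + 1)) ^ (2 * K) := by positivity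
    linarith
  refine ⟨2 * K₃ + 2 * K + 2 * J + 1, C₂ + 2 * 14 ^ K, by positivity, ?_⟩
  intro N N' U τ g hN hNN hN2 hU hg1 hg2 a b A₂ B₂ hA₂ hB₂ M L hM hL hUM hUL hML ha hb
  have hN0 : (0 : ℝ) < N := by exact_mod_cast (by omega : 0 < N)
  have hN1 : (1 : ℝ) < N := by exact_mod_cast (by omega : 1 < N)
  have hlog : 0 < Real.log N := Real.log_pos hN1
  have hM0 : (0 : ℝ) < M := by exact_mod_cast hM
  have hL0 : (0 : ℝ) < L := by exact_mod_cast hL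
  have hMLR : (M : ℝ) * L ≤ 2 * N := by
    have h1 : M * L ≤ 2 * N := hML.trans hN2
    exact_mod_cast h1
  obtain ⟨q, hq⟩ : ∃ q : ℝ, q = (Real.log N) ^ K := ⟨_, rfl⟩
  have hq0 : 0 < q := by rw [hq]; positivity
  have hqq : (Real.log N) ^ (2 * K) = q ^ 2 := by rw [hq, ← pow_mul, mul_comm]
  -- it is enough to bound the sums over `l'`
  have red : ∀ D : ℝ, (M : ℝ) * L * D ≤ ((C₂ + 2 * 14 ^ K) * N / q) ^ 2 →
      (∀ l ∈ Ioc L (2 * L), ∑ l' ∈ Ioc L (2 * L),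
        ‖∑ m ∈ Ioc M (2 * M), ww N N' τ g m l * conj (ww N N' τ g m l')‖ ≤ D) →
      ‖∑ m ∈ Ioc M (2 * M), ∑ l ∈ Ioc L (2 * L), a m * b l *
        (if N < m * l ∧ m * l ≤ N' then phE τ g (m * l) else 0)‖ ^ 2 ≤
      A₂ * B₂ * ((C₂ + 2 * 14 ^ K) * N / (Real.log N) ^ K) ^ 2 := by
    intro D hD1 hD2
    have h1 := cs a b (ww N N' τ g) D hD2
    have hD0 : 0 ≤ D := by
      refine le_trans ?_ (hD2 (2 * L) (by rw [mem_Ioc]; omega))
      exact Finset.sum_nonneg fun _ _ => norm_nonneg _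
    have h2 : (∑ m ∈ Ioc M (2 * M), ‖a m‖ ^ 2) * ((∑ l ∈ Ioc L (2 * L), ‖b l‖ ^ 2) * D) ≤
        (A₂ * M) * ((B₂ * L) * D) := by
      refine mul_le_mul ha (mul_le_mul_of_nonneg_right hb hD0) ?_ (by positivity)
      exact mul_nonneg (Finset.sum_nonneg fun _ _ => by positivity) hD0
    rw [← hq]
    refine (h1.trans h2).trans ?_
    calc (A₂ * M) * ((B₂ * L) * D) = A₂ * B₂ * (M * L * D) := by ring
      _ ≤ A₂ * B₂ * ((C₂ + 2 * 14 ^ K) * N / q) ^ 2 :=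
        mul_le_mul_of_nonneg_left hD1 (mul_nonneg hA₂ hB₂)
  by_cases hbig : 2 ^ 20 ≤ N
  · -- large `N`
    have hs : Sz N N' U M L := ⟨hbig, hN2, hU, hUM, hUL, hML⟩
    obtain ⟨Δ, hΔ⟩ : ∃ Δ : ℝ, Δ = L / (Real.log N) ^ (2 * K) := ⟨_, rfl⟩
    have hΔ0 : 0 ≤ Δ := by rw [hΔ]; positivity
    obtain ⟨X, hX⟩ : ∃ X : ℝ, X = 2 * (C₁ * 20 ^ (2 * K) * M / (Real.log N) ^ (2 * K)) := ⟨_, rfl⟩
    have hX0 : 0 ≤ X := by rw [hX]; positivity
    refine red ((2 * Δ + 1) * M + L * X) ?_ ?_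
    · obtain ⟨c, hc⟩ : ∃ c : ℝ, c = C₁ * 20 ^ (2 * K) := ⟨_, rfl⟩
      have hc0 : 0 < c := by rw [hc]; positivity
      obtain ⟨d, hd⟩ : ∃ d : ℝ, d = (20 * ((K : ℝ) + 1)) ^ (2 * K) := ⟨_, rfl⟩
      have hd0 : 0 ≤ d := by rw [hd]; positivity
      rw [hqq] at hΔ hX
      rw [← hc] at hX hC₂
      rw [← hd] at hC₂
      have h1 : q ^ 2 ≤ (N : ℝ) ^ (1 / 10 : ℝ) * d := by
        rw [← hqq, hd]
        exact logpow K hN1.le
      have h2 : (M : ℝ) * (N : ℝ) ^ (1 / 10 : ℝ) ≤ 4 * N := by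
        have h3 := hs.LR
        nlinarith
      have h3 : (M : ℝ) * q ^ 2 ≤ 4 * N * d := by
        calc (M : ℝ) * q ^ 2 ≤ M * ((N : ℝ) ^ (1 / 10 : ℝ) * d) := by gcongr
          _ = (M * (N : ℝ) ^ (1 / 10 : ℝ)) * d := by ring
          _ ≤ 4 * N * d := by gcongr
      have h4 : (M : ℝ) * L * ((2 * Δ + 1) * M + L * X) =
          (((M : ℝ) * L) ^ 2 * (2 + 2 * c) + (M : ℝ) * L * (M * q ^ 2)) / q ^ 2 := by
        rw [hΔ, hX]
        field_simp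
        ring
      rw [h4, div_pow]
      refine div_le_div_of_nonneg_right ?_ (by positivity)
      have h5 : ((M : ℝ) * L) ^ 2 ≤ (2 * N) ^ 2 := pow_le_pow_left₀ (by positivity) hMLR 2
      have h6 : ((M : ℝ) * L) ^ 2 * (2 + 2 * c) + (M : ℝ) * L * (M * q ^ 2) ≤
          (2 * N) ^ 2 * (2 + 2 * c) + 2 * N * (4 * N * d) := by gcongr
      have h7 : (2 * (N : ℝ)) ^ 2 * (2 + 2 * c) + 2 * N * (4 * N * d) = C₂ * (N : ℝ) ^ 2 := by
        rw [hC₂]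
        ring
      rw [h7] at h6
      refine h6.trans ?_
      rw [mul_pow]
      refine mul_le_mul_of_nonneg_right ?_ (by positivity)
      have h8 : C₂ ≤ C₂ + 2 * 14 ^ K := by
        have : (0 : ℝ) ≤ 2 * 14 ^ K := by positivity
        linarith
      nlinarith
    · intro l hl
      rw [← Finset.sum_filter_add_sum_filter_not (Ioc L (2 * L)) (fun l' : ℕ => |(l : ℝ) - l'| < Δ)]
      refine add_le_add ?_ ?_
      · refine (Finset.sum_le_sum fun l' _ => corr_triv).trans ?_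
        rw [Finset.sum_const, nsmul_eq_mul]
        exact mul_le_mul_of_nonneg_right (near_card L l hΔ0) hM0.le
      · have h1 : ∀ l' ∈ (Ioc L (2 * L)).filter (fun l' : ℕ => ¬ |(l : ℝ) - l'| < Δ),
            ‖∑ m ∈ Ioc M (2 * M), ww N N' τ g m l * conj (ww N N' τ g m l')‖ ≤ X := by
          intro l' hl'
          rw [mem_filter] at hl'
          rw [hX]
          refine far hC₁ hBL hs hg1 hg2 hl hl'.1 ?_
          rw [← hΔ]
          exact not_lt.1 hl'.2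
        refine (Finset.sum_le_sum h1).trans ?_
        rw [Finset.sum_const, nsmul_eq_mul]
        refine mul_le_mul_of_nonneg_right ?_ hX0
        have h2 := Finset.card_filter_le (Ioc L (2 * L)) (fun l' : ℕ => ¬ |(l : ℝ) - l'| < Δ)
        rw [Nat.card_Ioc] at h2
        exact_mod_cast (by omega : ((Ioc L (2 * L)).filter (fun l' : ℕ => ¬ |(l : ℝ) - l'| < Δ)).card ≤ L)
  · -- small `N`
    refine red (L * M) ?_ ?_
    · have h1 : Real.log N ≤ 14 := by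
        have h2 : (N : ℝ) ≤ 2 ^ 20 := by exact_mod_cast (by omega : N ≤ 2 ^ 20)
        have h3 := Real.log_le_log hN0 h2
        rw [Real.log_pow] at h3
        have h4 := Real.log_two_lt_d9
        push_cast at h3
        linarith
      have h2 : q ≤ 14 ^ K := by
        rw [hq]
        exact pow_le_pow_left₀ hlog.le h1 K
      have h3 : 2 * (N : ℝ) ≤ (C₂ + 2 * 14 ^ K) * N / q := by
        rw [le_div_iff₀ hq0]
        have h4 : 2 * q ≤ C₂ + 2 * 14 ^ K := by linarith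
        nlinarith
      have h5 : (M : ℝ) * L * (L * M) = ((M : ℝ) * L) ^ 2 := by ring
      rw [h5]
      exact pow_le_pow_left₀ (by positivity) (hMLR.trans h3) 2
    · intro l _
      refine (Finset.sum_le_sum fun l' _ => corr_triv).trans (le_of_eq ?_)
      rw [Finset.sum_const, Nat.card_Ioc, nsmul_eq_mul]
      congr 2
      omega

end Pool.Agent.N199.S2.TII
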